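import Pool.Agent.PCL.Stmts

set_option autoImplicit false

namespace Pool.Agent.PCL.H60

theorem lnp (h1 : CntStmt) : LnpStmt := by
  classical
  intro ι _ _ N ε δ T i₁ hε hδ hT hcard
  obtain ⟨-, h2, -⟩ := h1 ι N ε hε.le
  set R : ℕ := ⌊2 * ε * N i₁⌋₊ with hR
  have hR0 : (0 : ℝ) ≤ 2 * ε * N i₁ := by positivity
  set up : (ι → ℤ) → (ι → ℤ) := fun x => Function.update x i₁ 0 with hup
  set W : Finset (ι → ℤ) := (bx N (2 * ε)).image up with hW
  have habs : ∀ a : ℤ, |(a : ℝ)| ≤ 2 * ε * N i₁ ↔ |a| ≤ (R : ℤ) := by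
    intro a
    rw [hR]
    have e1 : |(a : ℝ)| = ((a.natAbs : ℕ) : ℝ) := by
      rw [Nat.cast_natAbs]; push_cast; rfl
    rw [e1, ← Nat.le_floor_iff hR0, Int.abs_eq_natAbs]
    exact_mod_cast Iff.rfl
  have hWc : W.card * (2 * R + 1) ≤ (bx N (2 * ε)).card := by
    have hI : (Finset.Icc (-(R : ℤ)) R).card = 2 * R + 1 := by
      rw [Int.card_Icc]; omega
    rw [← hI, ← Finset.card_product]
    apply Finset.card_le_card_of_injOn (fun p : (ι → ℤ) × ℤ => Function.update p.1 i₁ p.2)
    · rintro ⟨w, a⟩ hp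
      simp only [Finset.coe_product, Set.mem_prod, Finset.mem_coe, hW, Finset.mem_image] at hp
      obtain ⟨⟨x, hx, rfl⟩, ha⟩ := hp
      rw [mem_bx] at hx
      rw [Finset.mem_coe, mem_bx]
      intro i
      by_cases hi : i = i₁
      · subst hi
        simp only [Function.update_self]
        rw [habs, abs_le]
        exact Finset.mem_Icc.mp ha
      · simp only [hup, Function.update_of_ne hi]
        exact hx i
    · rintro ⟨w, a⟩ hp ⟨w', a'⟩ hp' he
      simp only [Finset.coe_product, Set.mem_prod, Finset.mem_coe, hW, Finset.mem_image] at hp hp'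
      obtain ⟨⟨x, hx, rfl⟩, ha⟩ := hp
      obtain ⟨⟨x', hx', rfl⟩, ha'⟩ := hp'
      simp only at he
      have e1 : a = a' := by
        have := congrFun he i₁
        simpa using this
      subst e1
      have e2 : up x = up x' := by
        funext i
        by_cases hi : i = i₁
        · subst hi; simp [hup]
        · have := congrFun he i
          simpa [Function.update_of_ne hi] using this
      rw [e2]
  have hmaps : ∀ x ∈ T, up x ∈ W := fun x hx =>
    Finset.mem_image_of_mem _ (mem_bx.mpr (hT x hx))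
  have hWne : W.Nonempty := by
    refine ⟨up 0, Finset.mem_image_of_mem _ (mem_bx.mpr fun i => ?_)⟩
    simp
    positivity
  set b : ℝ := δ / 3 ^ Fintype.card ι * (2 * (R : ℝ) + 1) with hb
  have hle : W.card • b ≤ (T.card : ℝ) := by
    rw [nsmul_eq_mul, hb]
    have h3 : (W.card : ℝ) * (2 * (R : ℝ) + 1) ≤ 3 ^ Fintype.card ι * (bx N ε).card := by
      refine le_trans ?_ h2
      exact_mod_cast hWc
    calc (W.card : ℝ) * (δ / 3 ^ Fintype.card ι * (2 * (R : ℝ) + 1))
        = δ / 3 ^ Fintype.card ι * ((W.card : ℝ) * (2 * (R : ℝ) + 1)) := by ring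
      _ ≤ δ / 3 ^ Fintype.card ι * (3 ^ Fintype.card ι * (bx N ε).card) :=
          mul_le_mul_of_nonneg_left h3 (by positivity)
      _ = δ * (bx N ε).card := by field_simp
      _ ≤ T.card := hcard
  obtain ⟨w, hw, hbw⟩ := Finset.exists_le_card_fiber_of_nsmul_le_card_of_maps_to hmaps hWne hle
  refine ⟨w, (T.filter fun x => up x = w).image (fun x => x i₁), ?_, ?_, ?_⟩
  · intro a ha
    obtain ⟨x, hx, rfl⟩ := Finset.mem_image.mp ha
    rw [← habs]
    exact hT x (Finset.mem_filter.mp hx).1 i₁
  · intro a ha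
    obtain ⟨x, hx, rfl⟩ := Finset.mem_image.mp ha
    obtain ⟨hxT, hxw⟩ := Finset.mem_filter.mp hx
    have e : w + (x i₁) • (Pi.single i₁ (1 : ℤ) : ι → ℤ) = x := by
      rw [← hxw]
      funext i
      by_cases hi : i = i₁
      · subst hi; simp [hup]
      · simp [hup, Function.update_of_ne hi, Pi.single_eq_of_ne hi]
    rw [e]
    exact hxT
  · rw [Finset.card_image_of_injOn]
    · exact hbw
    · intro x hx y hy hxy
      simp only [Finset.coe_filter, Set.mem_ofPred_eq] at hx hy
      have e := hx.2.trans hy.2.symm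
      funext i
      by_cases hi : i = i₁
      · subst hi; exact hxy
      · have := congrFun e i
        simpa [hup, Function.update_of_ne hi] using this

end Pool.Agent.PCL.H60
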